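import Mathlib
import Pool.Agent.H25.QSum

namespace Pool.Agent.Results.MP_ede29a_nt.TwoN

open Finset

/-- `f n r = ∑ k ≤ n, (n choose k) ^ r`. -/
def f (n r : ℕ) : ℤ := ∑ k ∈ range (n + 1), (n.choose k : ℤ) ^ r

theorem result (r n : ℕ) (hr : 1 ≤ r) :
    2 * (n : ℤ) ∣ ∑ k ∈ range n, (-1) ^ (r * k) * (3 * k + 2) * f k r :=
  H25.QSum.two_n n r (by omega)

end Pool.Agent.Results.MP_ede29a_nt.TwoN
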